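import Mathlib

/-!
# CRD, area E: the quaternion algebra is not split over the generic fibre
-/

open Polynomial

namespace Pool.CRD.E1

section scale

variable {K : Type*} [Field K] (V : ValuationSubring K)

/-- polynomials in two variables -/
abbrev P2 (R : Type*) [CommRing R] := Polynomial (Polynomial R)

/-- change of coefficients -/
noncomputable abbrev mp {R S : Type*} [CommRing R] [CommRing S] (f : R →+* S) : P2 R →+* P2 S :=
  mapRingHom (mapRingHom f)

lemma coeff_mp {R S : Type*} [CommRing R] [CommRing S] (f : R →+* S) (p : P2 R) (n m : ℕ) :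
    ((mp f p).coeff n).coeff m = f ((p.coeff n).coeff m) := by
  simp [mp]

lemma mem_range_mp {R S : Type*} [CommRing R] [CommRing S] (f : R →+* S) (p : P2 S)
    (h : ∀ n m, (p.coeff n).coeff m ∈ Set.range f) : ∃ q : P2 R, mp f q = p := by
  have h1 : p ∈ lifts (mapRingHom f) := by
    rw [lifts_iff_coeff_lifts]
    intro n
    have h2 : p.coeff n ∈ lifts f := by
      rw [lifts_iff_coeff_lifts]
      exact h n
    rw [lifts_iff_set_range] at h2
    exact h2
  rw [lifts_iff_set_range] at h1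
  exact h1

theorem scale {ι : Type*} [Fintype ι] (p : ι → P2 K) (hp : ∃ j, p j ≠ 0) :
    ∃ (c : K) (_ : c ≠ 0) (p' : ι → P2 V),
      (∀ j, mp V.subtype (p' j) = C (C c) * p j) ∧
      ∃ j, mp (IsLocalRing.residue V) (p' j) ≠ 0 := by
  classical
  let I : Finset (ι × ℕ × ℕ) := Finset.univ.sigma (fun j => (p j).support.sigma
    (fun n => ((p j).coeff n).support)) |>.image (fun x => (x.1, x.2.1, x.2.2))
  have hI : ∀ j n m, (j, n, m) ∈ I ↔ ((p j).coeff n).coeff m ≠ 0 := by
    intro j n m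
    simp only [I, Finset.mem_image, Finset.mem_sigma, Finset.mem_univ, true_and, mem_support_iff]
    constructor
    · rintro ⟨⟨j', n', m'⟩, ⟨h1, h2⟩, h3⟩
      simp only [Prod.mk.injEq] at h3
      obtain ⟨rfl, rfl, rfl⟩ := h3
      exact h2
    · intro h
      refine ⟨⟨j, n, m⟩, ⟨fun h0 => h (by rw [h0, coeff_zero]), h⟩, rfl⟩
  have hne : I.Nonempty := by
    obtain ⟨j, hj⟩ := hp
    have h1 : ∃ n, (p j).coeff n ≠ 0 := by
      by_contra h
      push Not at h
      exact hj (ext fun n => by rw [h n, coeff_zero])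
    obtain ⟨n, hn⟩ := h1
    have h2 : ∃ m, ((p j).coeff n).coeff m ≠ 0 := by
      by_contra h
      push Not at h
      exact hn (ext fun m => by rw [h m, coeff_zero])
    obtain ⟨m, hm⟩ := h2
    exact ⟨(j, n, m), (hI j n m).2 hm⟩
  obtain ⟨⟨j₀, n₀, m₀⟩, h0, hmax⟩ := I.exists_max_image
    (fun x => V.valuation (((p x.1).coeff x.2.1).coeff x.2.2)) hne
  have h0' : ((p j₀).coeff n₀).coeff m₀ ≠ 0 := (hI _ _ _).1 h0
  set c₀ := ((p j₀).coeff n₀).coeff m₀ with hc₀
  have hle : ∀ j n m, V.valuation (((p j).coeff n).coeff m) ≤ V.valuation c₀ := by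
    intro j n m
    by_cases h : ((p j).coeff n).coeff m = 0
    · rw [h, map_zero]; exact zero_le
    · exact hmax (j, n, m) ((hI _ _ _).2 h)
  have hmem : ∀ j n m, c₀⁻¹ * ((p j).coeff n).coeff m ∈ V := by
    intro j n m
    rw [← V.valuation_le_one_iff, map_mul, map_inv₀]
    have hv : V.valuation c₀ ≠ 0 := by
      rw [Ne, map_eq_zero]; exact h0'
    calc (V.valuation c₀)⁻¹ * V.valuation (((p j).coeff n).coeff m)
        ≤ (V.valuation c₀)⁻¹ * V.valuation c₀ := mul_le_mul_right (hle j n m) _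
      _ = 1 := inv_mul_cancel₀ hv
  have hex : ∀ j, ∃ q : P2 V, mp V.subtype q = C (C c₀⁻¹) * p j := by
    intro j
    apply mem_range_mp
    intro n m
    rw [coeff_C_mul, coeff_C_mul]
    exact ⟨⟨_, hmem j n m⟩, rfl⟩
  choose p' hp' using hex
  refine ⟨c₀⁻¹, inv_ne_zero h0', p', hp', j₀, ?_⟩
  intro h
  have h1 : ((mp (IsLocalRing.residue V) (p' j₀)).coeff n₀).coeff m₀ = 0 := by
    rw [h]; simp
  rw [coeff_mp] at h1
  have h2 := coeff_mp V.subtype (p' j₀) n₀ m₀
  rw [hp' j₀, coeff_C_mul, coeff_C_mul, ← hc₀, inv_mul_cancel₀ h0'] at h2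
  have h3 : ((p' j₀).coeff n₀).coeff m₀ = 1 := by
    apply Subtype.ext
    exact h2.symm
  rw [h3, map_one] at h1
  exact one_ne_zero h1

end scale

section val

theorem exists_val {K : Type*} [Field K] [CharZero K] (t : K) (ht : Transcendental ℚ t) :
    ∃ (V : ValuationSubring K) (h : t ∈ V), IsLocalRing.residue V ⟨t, h⟩ = 0 ∧
      CharZero (IsLocalRing.ResidueField V) := by
  let A : Subring K := (Algebra.adjoin ℚ {t}).toSubring
  have htA : t ∈ A := Algebra.subset_adjoin rfl
  let I : Ideal A := Ideal.span {⟨t, htA⟩}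
  have hI : I ≠ ⊤ := by
    rw [Ne, Ideal.span_singleton_eq_top]
    intro h
    obtain ⟨u, hu⟩ := h
    have h1 : (⟨t, htA⟩ : A) * (u⁻¹ : Aˣ) = 1 := by
      rw [← hu]; simp
    obtain ⟨b, hb⟩ : ∃ b : A, (⟨t, htA⟩ : A) * b = 1 := ⟨_, h1⟩
    have hb' : (b : K) ∈ Algebra.adjoin ℚ {t} := b.2
    rw [Algebra.adjoin_singleton_eq_range_aeval] at hb'
    obtain ⟨q, hq⟩ := hb'
    have h2 : t * (b : K) = 1 := congr_arg Subtype.val hb
    have h3 : aeval t (X * q - 1) = 0 := by
      rw [map_sub, map_mul, aeval_X, map_one]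
      have : aeval t q = (b : K) := hq
      rw [this, h2, sub_self]
    have h4 : (X * q - 1 : ℚ[X]) = 0 := by
      by_contra h
      exact ht ⟨_, h, h3⟩
    have h5 := congr_arg (eval 0) h4
    simp at h5
  obtain ⟨V, hAV, hV⟩ := Ideal.image_subset_nonunits_valuationSubring (K := K) I hI
  have htV : t ∈ V := hAV htA
  refine ⟨V, htV, ?_, ?_⟩
  · have h1 : t ∈ V.nonunits := hV ⟨⟨t, htA⟩, Ideal.subset_span rfl, rfl⟩
    rw [IsLocalRing.residue_eq_zero_iff]
    exact (ValuationSubring.mem_nonunits_iff_exists_mem_maximalIdeal.1 h1).2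
  · refine charZero_of_inj_zero fun n hn => ?_
    by_contra hn0
    have hK : (n : K) ≠ 0 := Nat.cast_ne_zero.2 hn0
    have hinv : ((n : K))⁻¹ ∈ V := by
      apply hAV
      have h : algebraMap ℚ K ((n : ℚ)⁻¹) ∈ Algebra.adjoin ℚ {t} := Subalgebra.algebraMap_mem _ _
      have h' : ((n : K))⁻¹ ∈ Algebra.adjoin ℚ {t} := by simpa using h
      exact h'
    have h1 : (n : V) * ⟨_, hinv⟩ = 1 := by
      apply Subtype.ext
      change (n : K) * (n : K)⁻¹ = 1
      exact mul_inv_cancel₀ hK
    have h2 := congr_arg (IsLocalRing.residue V) h1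
    rw [map_mul, map_natCast, hn, zero_mul, map_one] at h2
    exact zero_ne_one h2

end val

section rel

/-- the polynomial `X (X^3-1) (X^3-4)` in the first variable -/
noncomputable def q1 (R : Type*) [CommRing R] : P2 R := C (X * (X ^ 3 - 1) * (X ^ 3 - 4))

/-- the polynomial `X (X^3-1) (X^3-t)` in the second variable -/
noncomputable def q2 {R : Type*} [CommRing R] (t : R) : P2 R := X * (X ^ 3 - 1) * (X ^ 3 - C (C t))

/-- coordinates of the square of `a0 + a1 y1 + a2 y2 + a3 y1 y2` -/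
def sq4 {S : Type*} [CommRing S] (q q' : S) (a : Fin 4 → S) : Fin 4 → S :=
  ![a 0 ^ 2 + a 1 ^ 2 * q + a 2 ^ 2 * q' + a 3 ^ 2 * q * q',
    2 * a 0 * a 1 + 2 * a 2 * a 3 * q', 2 * a 0 * a 2 + 2 * a 1 * a 3 * q,
    2 * a 0 * a 3 + 2 * a 1 * a 2]

/-- the relation `A^2 - z1 B^2 = z2 C^2` in coordinates -/
def Rel {S : Type*} [CommRing S] (q q' z z' : S) (p : Fin 3 × Fin 4 → S) : Prop :=
  ∀ k, sq4 q q' (fun j => p (0, j)) k - z * sq4 q q' (fun j => p (1, j)) k =
    z' * sq4 q q' (fun j => p (2, j)) k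

lemma map_sq4 {S S' : Type*} [CommRing S] [CommRing S'] (f : S →+* S') (q q' : S)
    (a : Fin 4 → S) (k : Fin 4) : f (sq4 q q' a k) = sq4 (f q) (f q') (fun j => f (a j)) k := by
  have h2 : f 2 = 2 := map_ofNat f 2
  fin_cases k <;> simp [sq4, h2]

lemma Rel.map {S S' : Type*} [CommRing S] [CommRing S'] (f : S →+* S') {q q' z z' : S}
    {p : Fin 3 × Fin 4 → S} (h : Rel q q' z z' p) :
    Rel (f q) (f q') (f z) (f z') (fun x => f (p x)) := by
  intro k
  have := congr_arg f (h k)
  rw [map_sub, map_mul, map_mul, map_sq4, map_sq4, map_sq4] at this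
  exact this

lemma Rel.of_map {S S' : Type*} [CommRing S] [CommRing S'] (f : S →+* S')
    (hf : Function.Injective f) {q q' z z' : S}
    {p : Fin 3 × Fin 4 → S} (h : Rel (f q) (f q') (f z) (f z') (fun x => f (p x))) :
    Rel q q' z z' p := by
  intro k
  apply hf
  rw [map_sub, map_mul, map_mul, map_sq4, map_sq4, map_sq4]
  exact h k

lemma sq4_smul {S : Type*} [CommRing S] (c q q' : S) (a : Fin 4 → S) (k : Fin 4) :
    sq4 q q' (fun j => c * a j) k = c ^ 2 * sq4 q q' a k := by
  fin_cases k <;> simp [sq4] <;> ring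

lemma Rel.smul {S : Type*} [CommRing S] {q q' z z' : S} {p : Fin 3 × Fin 4 → S}
    (h : Rel q q' z z' p) (c : S) : Rel q q' z z' (fun x => c * p x) := by
  intro k
  rw [sq4_smul, sq4_smul, sq4_smul]
  linear_combination c ^ 2 * h k

/-- evaluation of coordinates -/
def ev {S : Type*} [CommRing S] (y y' : S) (a : Fin 4 → S) : S :=
  a 0 + a 1 * y + (a 2 + a 3 * y) * y'

lemma ev_sq {S : Type*} [CommRing S] {q q' : S} (y y' : S) (hy : y ^ 2 = q) (hy' : y' ^ 2 = q')
    (a : Fin 4 → S) : ev y y' a ^ 2 = ev y y' (sq4 q q' a) := by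
  simp only [ev, sq4, Matrix.cons_val]
  rw [← hy, ← hy']
  ring

lemma Rel.ev {S : Type*} [CommRing S] {q q' z z' : S} {p : Fin 3 × Fin 4 → S}
    (h : Rel q q' z z' p) (y y' : S) (hy : y ^ 2 = q) (hy' : y' ^ 2 = q') :
    ev y y' (fun j => p (0, j)) ^ 2 - z * ev y y' (fun j => p (1, j)) ^ 2 =
      z' * ev y y' (fun j => p (2, j)) ^ 2 := by
  rw [ev_sq y y' hy hy', ev_sq y y' hy hy', ev_sq y y' hy hy']
  unfold E1.ev
  linear_combination h 0 + h 1 * y + (h 2 + h 3 * y) * y'

end rel

section series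

variable {P : Type*} [Field P]

/-- infinite descent in power series -/
lemma descent (z : P) (hz : ∀ c : P, c ^ 2 ≠ z) (n : ℕ) : ∀ A B E : PowerSeries P,
    A ^ 2 - PowerSeries.C z * B ^ 2 = PowerSeries.X * E ^ 2 →
    PowerSeries.X ^ n ∣ A ∧ PowerSeries.X ^ n ∣ B ∧ PowerSeries.X ^ n ∣ E := by
  induction n with
  | zero => intro A B E _; simp
  | succ n ih =>
    intro A B E h
    have h0 := congr_arg PowerSeries.constantCoeff h
    simp only [map_sub, map_mul, map_pow, PowerSeries.constantCoeff_C,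
      PowerSeries.constantCoeff_X, zero_mul] at h0
    have hB : PowerSeries.constantCoeff B = 0 := by
      by_contra hB
      apply hz (PowerSeries.constantCoeff A / PowerSeries.constantCoeff B)
      field_simp
      linear_combination h0
    have hA : PowerSeries.constantCoeff A = 0 := by
      rw [hB] at h0
      have : PowerSeries.constantCoeff A ^ 2 = 0 := by linear_combination h0
      exact pow_eq_zero_iff (two_ne_zero) |>.1 this
    obtain ⟨A', rfl⟩ := PowerSeries.X_dvd_iff.2 hA
    obtain ⟨B', rfl⟩ := PowerSeries.X_dvd_iff.2 hB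
    have h1 : PowerSeries.X * (A' ^ 2 - PowerSeries.C z * B' ^ 2) = E ^ 2 := by
      apply mul_left_cancel₀ (PowerSeries.X_ne_zero (R := P))
      linear_combination h
    have hE : PowerSeries.constantCoeff E = 0 := by
      have h2 := congr_arg PowerSeries.constantCoeff h1
      simp only [map_mul, map_pow, PowerSeries.constantCoeff_X, zero_mul] at h2
      exact pow_eq_zero_iff (two_ne_zero) |>.1 h2.symm
    obtain ⟨E', rfl⟩ := PowerSeries.X_dvd_iff.2 hE
    have h3 : A' ^ 2 - PowerSeries.C z * B' ^ 2 = PowerSeries.X * E' ^ 2 := by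
      apply mul_left_cancel₀ (PowerSeries.X_ne_zero (R := P))
      linear_combination h1
    obtain ⟨a, b, c⟩ := ih A' B' E' h3
    refine ⟨?_, ?_, ?_⟩ <;> rw [pow_succ'] <;> exact mul_dvd_mul_left _ (by assumption)

lemma descent_zero (z : P) (hz : ∀ c : P, c ^ 2 ≠ z) (A B E : PowerSeries P)
    (h : A ^ 2 - PowerSeries.C z * B ^ 2 = PowerSeries.X * E ^ 2) : A = 0 ∧ B = 0 ∧ E = 0 := by
  have key : ∀ G : PowerSeries P, (∀ n, PowerSeries.X ^ n ∣ G) → G = 0 := by
    intro G hG
    ext n
    have := (PowerSeries.X_pow_dvd_iff.1 (hG (n + 1))) n (Nat.lt_succ_self n)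
    rw [this]; rfl
  exact ⟨key A fun n => (descent z hz n A B E h).1, key B fun n => (descent z hz n A B E h).2.1,
    key E fun n => (descent z hz n A B E h).2.2⟩

/-- the square root of `X^3 - 1` -/
lemma exists_sqrt (h2 : (2 : P) ≠ 0) (i : P) (hi : i ^ 2 = -1) :
    ∃ g : PowerSeries P, g ^ 2 = PowerSeries.X ^ 3 - 1 := by
  have hH : HenselianRing (PowerSeries P) (Ideal.span {PowerSeries.X}) := inferInstance
  let f : Polynomial (PowerSeries P) := X ^ 2 - C (PowerSeries.X ^ 3 - 1)
  have hf : f.Monic := monic_X_pow_sub_C _ two_ne_zero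
  have hi0 : i ≠ 0 := by
    rintro rfl
    norm_num at hi
  obtain ⟨g, hg, -⟩ := hH.is_henselian f hf (PowerSeries.C i) (by
    have : f.eval (PowerSeries.C i) = PowerSeries.X * (- PowerSeries.X ^ 2) := by
      simp only [f, eval_sub, eval_pow, eval_X, eval_C]
      rw [← map_pow, hi, map_neg, map_one]
      ring
    rw [this]
    exact Ideal.mul_mem_right _ _ (Ideal.subset_span rfl)) (by
    have : f.derivative.eval (PowerSeries.C i) = PowerSeries.C (2 * i) := by
      have h3 : f.derivative = 2 * X := by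
        simp only [f, derivative_sub, derivative_X_pow, derivative_C]
        norm_num
        rfl
      rw [h3, eval_mul, eval_X, map_mul, map_ofNat]
      norm_num
    rw [this]
    have hu : IsUnit (2 * i) := (mul_ne_zero h2 hi0).isUnit
    exact (hu.map _).map _)
  refine ⟨g, ?_⟩
  have := hg
  simp only [IsRoot, f, eval_sub, eval_pow, eval_X, eval_C] at this
  exact sub_eq_zero.1 this

end series

section curve

variable {k : Type*} [Field k]

lemma sq_ratfunc (r : RatFunc k) (p : k[X]) (h : r ^ 2 = algebraMap k[X] (RatFunc k) p) :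
    ∃ f : k[X], f ^ 2 = p := by
  have h1 : IsIntegral k[X] r := by
    refine ⟨X ^ 2 - C p, monic_X_pow_sub_C _ two_ne_zero, ?_⟩
    simp [h]
  obtain ⟨f, hf⟩ := IsIntegrallyClosed.isIntegral_iff.1 h1
  refine ⟨f, IsFractionRing.injective k[X] (RatFunc k) ?_⟩
  rw [map_pow, hf, h]

/-- `X (X^3-1) (X^3-4)` -/
noncomputable def q0 (k : Type*) [CommRing k] : k[X] := X * (X ^ 3 - 1) * (X ^ 3 - 4)

lemma natDegree_q0 (k : Type*) [Field k] : (q0 k).natDegree = 7 := by
  unfold q0
  compute_degree!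

lemma monic_q0 (k : Type*) [Field k] : (q0 k).Monic := by
  unfold q0
  monicity!

lemma nsq_q0 (r : RatFunc k) : r ^ 2 ≠ algebraMap k[X] (RatFunc k) (q0 k) := by
  intro h
  obtain ⟨f, hf⟩ := sq_ratfunc r _ h
  have := congr_arg natDegree hf
  rw [natDegree_pow, natDegree_q0] at this
  omega

lemma nsq_X (r : RatFunc k) : r ^ 2 ≠ algebraMap k[X] (RatFunc k) X := by
  intro h
  obtain ⟨f, hf⟩ := sq_ratfunc r _ h
  have := congr_arg natDegree hf
  rw [natDegree_pow, natDegree_X] at this
  omega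

lemma nsq_q0X [CharZero k] (r : RatFunc k) :
    r ^ 2 * algebraMap k[X] (RatFunc k) (q0 k) ≠ algebraMap k[X] (RatFunc k) X := by
  intro h
  set z := algebraMap k[X] (RatFunc k) X with hz
  have hz0 : z ≠ 0 := by
    rw [hz, Ne, FaithfulSMul.algebraMap_eq_zero_iff]
    exact X_ne_zero
  have h1 : (r * algebraMap k[X] (RatFunc k) ((X ^ 3 - 1) * (X ^ 3 - 4))) ^ 2 =
      algebraMap k[X] (RatFunc k) ((X ^ 3 - 1) * (X ^ 3 - 4)) := by
    have h2 : algebraMap k[X] (RatFunc k) (q0 k) =
        z * algebraMap k[X] (RatFunc k) ((X ^ 3 - 1) * (X ^ 3 - 4)) := by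
      rw [hz, ← map_mul]
      congr 1
      unfold q0
      ring
    rw [h2] at h
    apply mul_left_cancel₀ hz0
    linear_combination algebraMap k[X] (RatFunc k) ((X ^ 3 - 1) * (X ^ 3 - 4)) * h
  obtain ⟨f, hf⟩ := sq_ratfunc _ _ h1
  have h3 : f.eval 1 = 0 := by
    have := congr_arg (eval 1) hf
    simp at this
    exact this
  have h4 := congr_arg (eval 1) (congr_arg derivative hf)
  simp [derivative_pow, h3] at h4
  norm_num at h4

/-- the function field of `y^2 = X (X^3-1) (X^3-4)` -/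
abbrev PP (k : Type*) [Field k] := QuadraticAlgebra (RatFunc k) (algebraMap k[X] (RatFunc k) (q0 k)) 0

instance factPP : Fact (∀ r : RatFunc k, r ^ 2 ≠ algebraMap k[X] (RatFunc k) (q0 k) + 0 * r) :=
  ⟨fun r => by rw [zero_mul, add_zero]; exact nsq_q0 r⟩

/-- the inclusion of the polynomials -/
noncomputable def phi (k : Type*) [Field k] : k[X] →+* PP k :=
  (algebraMap (RatFunc k) (PP k)).comp (algebraMap k[X] (RatFunc k))

/-- the square root -/
noncomputable def yy (k : Type*) [Field k] : PP k := ⟨0, 1⟩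

lemma yy_sq : yy k ^ 2 = phi k (q0 k) := by
  ext <;> simp [yy, phi, pow_two]

lemma phi_ind (a b : k[X]) (h : phi k a + phi k b * yy k = 0) : a = 0 ∧ b = 0 := by
  have h1 := congr_arg QuadraticAlgebra.re h
  have h2 := congr_arg QuadraticAlgebra.im h
  simp [yy, phi] at h1 h2
  exact ⟨h1, h2⟩

lemma phi_nsq [CharZero k] (c : PP k) : c ^ 2 ≠ phi k X := by
  intro h
  have h1 := congr_arg QuadraticAlgebra.re h
  have h2 := congr_arg QuadraticAlgebra.im h
  simp only [phi, pow_two, QuadraticAlgebra.re_mul, QuadraticAlgebra.im_mul, RingHom.comp_apply,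
    QuadraticAlgebra.algebraMap_re, QuadraticAlgebra.algebraMap_im, zero_mul, add_zero] at h1 h2
  have h3 : c.re * c.im = 0 := by
    have : (2 : RatFunc k) * (c.re * c.im) = 0 := by linear_combination h2
    rcases mul_eq_zero.1 this with h | h
    · exact absurd h two_ne_zero
    · exact h
  rcases mul_eq_zero.1 h3 with h | h
  · rw [h] at h1
    apply nsq_q0X c.im
    linear_combination h1
  · rw [h] at h1
    apply nsq_X c.re
    linear_combination h1

end curve

section core

variable {k : Type*} [Field k]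

/-- `p ↦` power series with coefficients in the field `PP k` -/
noncomputable def EE (k : Type*) [Field k] : P2 k →+* PowerSeries (PP k) :=
  (Polynomial.coeToPowerSeries.ringHom (R := PP k)).comp (mapRingHom (phi k))

lemma EE_X : EE k X = PowerSeries.X := by
  simp [EE]

lemma EE_C (a : k[X]) : EE k (C a) = PowerSeries.C (phi k a) := by
  simp [EE]

lemma EE_q2 : EE k (q2 0) = PowerSeries.X ^ 4 * (PowerSeries.X ^ 3 - 1) := by
  simp only [q2, map_mul, map_sub, map_pow, EE_X, map_one, map_zero, sub_zero]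
  ring

lemma poly_ind (α β : (PP k)[X]) (g : PowerSeries (PP k)) (hg : g ^ 2 = PowerSeries.X ^ 3 - 1)
    (h : (α : PowerSeries (PP k)) + (β : PowerSeries (PP k)) * (PowerSeries.X ^ 2 * g) = 0) :
    α = 0 ∧ β = 0 := by
  have h1 : α ^ 2 = β ^ 2 * (X ^ 4 * (X ^ 3 - 1)) := by
    apply Polynomial.coe_injective
    push_cast
    linear_combination ((α : PowerSeries (PP k)) - (β : PowerSeries (PP k)) *
      (PowerSeries.X ^ 2 * g)) * h + (β : PowerSeries (PP k)) ^ 2 * PowerSeries.X ^ 4 * hg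
  have hβ : β = 0 := by
    by_contra hβ
    have h2 := congr_arg natDegree h1
    have h3 : (X ^ 4 * (X ^ 3 - 1) : (PP k)[X]).natDegree = 7 := by compute_degree!
    have h4 : (X ^ 4 * (X ^ 3 - 1) : (PP k)[X]) ≠ 0 := by
      intro h
      rw [h, natDegree_zero] at h3
      omega
    rw [natDegree_pow, natDegree_mul (pow_ne_zero _ hβ) h4, natDegree_pow, h3] at h2
    omega
  refine ⟨?_, hβ⟩
  rw [hβ] at h1
  exact pow_eq_zero_iff two_ne_zero |>.1 (by rw [h1]; ring)

lemma ev_ind (g : PowerSeries (PP k)) (hg : g ^ 2 = PowerSeries.X ^ 3 - 1)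
    (p : Fin 4 → P2 k)
    (h : ev (PowerSeries.C (yy k)) (PowerSeries.X ^ 2 * g) (fun j => EE k (p j)) = 0) :
    ∀ j, p j = 0 := by
  have h1 := poly_ind ((p 0).map (phi k) + C (yy k) * (p 1).map (phi k))
    ((p 2).map (phi k) + C (yy k) * (p 3).map (phi k)) g hg (by
      have : ∀ j, (((p j).map (phi k) : (PP k)[X]) : PowerSeries (PP k)) = EE k (p j) := by
        intro j; simp [EE]
      push_cast
      rw [this, this, this, this]
      unfold ev at h
      linear_combination h)
  have key : ∀ a b : P2 k, a.map (phi k) + C (yy k) * b.map (phi k) = 0 → a = 0 ∧ b = 0 := by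
    intro a b hab
    have h2 : ∀ n, a.coeff n = 0 ∧ b.coeff n = 0 := by
      intro n
      have h3 := congr_arg (fun p => p.coeff n) hab
      simp only [coeff_add, coeff_C_mul, coeff_map, coeff_zero] at h3
      apply phi_ind
      linear_combination h3
    exact ⟨ext fun n => by rw [(h2 n).1, coeff_zero], ext fun n => by rw [(h2 n).2, coeff_zero]⟩
  obtain ⟨ha, hb⟩ := h1
  obtain ⟨h0, h1⟩ := key _ _ ha
  obtain ⟨h2, h3⟩ := key _ _ hb
  intro j
  fin_cases j
  · exact h0
  · exact h1
  · exact h2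
  · exact h3

/-- the degenerate case: `t = 0` -/
theorem core_zero [CharZero k] (i : k) (hi : i ^ 2 = -1) (p : Fin 3 × Fin 4 → P2 k)
    (h : Rel (q1 k) (q2 0) (C X) X p) : ∀ x, p x = 0 := by
  obtain ⟨g, hg⟩ := exists_sqrt (P := PP k) two_ne_zero (algebraMap (RatFunc k) (PP k)
    (algebraMap k (RatFunc k) i)) (by rw [← map_pow, ← map_pow, hi, map_neg, map_neg, map_one,
      map_one])
  have h1 := h.map (EE k)
  rw [EE_X, EE_C, EE_q2] at h1
  have hq : EE k (q1 k) = PowerSeries.C (yy k ^ 2) := by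
    rw [yy_sq]
    exact EE_C _
  rw [hq] at h1
  have h2 := h1.ev (PowerSeries.C (yy k)) (PowerSeries.X ^ 2 * g) (by rw [map_pow]) (by
    linear_combination PowerSeries.X ^ 4 * hg)
  obtain ⟨hA, hB, hE⟩ := descent_zero (phi k X) phi_nsq _ _ _ h2
  rintro ⟨a, b⟩
  fin_cases a
  · exact ev_ind g hg (fun j => p (0, j)) hA b
  · exact ev_ind g hg (fun j => p (1, j)) hB b
  · exact ev_ind g hg (fun j => p (2, j)) hE b

/-- the main theorem in coordinates -/
theorem core_poly {K : Type*} [Field K] [CharZero K] (i : K) (hi : i ^ 2 = -1) (t : K)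
    (ht : Transcendental ℚ t) (p : Fin 3 × Fin 4 → P2 K)
    (h : Rel (q1 K) (q2 t) (C X) X p) : ∀ x, p x = 0 := by
  by_contra hne
  push Not at hne
  obtain ⟨V, htV, hres, hchar⟩ := exists_val t ht
  obtain ⟨c, hc, p', hp', j, hj⟩ := scale V p hne
  have h1 : Rel (mp V.subtype (q1 V)) (mp V.subtype (q2 (⟨t, htV⟩ : V))) (mp V.subtype (C X))
      (mp V.subtype X) (fun x => mp V.subtype (p' x)) := by
    have e1 : mp V.subtype (q1 V) = q1 K := by
      simp [q1]
    have e2 : mp V.subtype (q2 (⟨t, htV⟩ : V)) = q2 t := by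
      simp only [q2, map_mul, map_sub, map_pow, map_one, coe_mapRingHom, map_X, map_C]
      rfl
    have e3 : mp V.subtype (C X) = C X := by simp
    have e4 : mp V.subtype X = X := by simp
    rw [e1, e2, e3, e4]
    have := h.smul (C (C c))
    have e5 : (fun x => mp V.subtype (p' x)) = fun x => C (C c) * p x := funext hp'
    rw [e5]
    exact this
  have hinj : Function.Injective (mp V.subtype) :=
    map_injective _ (map_injective _ Subtype.val_injective)
  have h2 := h1.of_map _ hinj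
  have h3 := h2.map (mp (IsLocalRing.residue V))
  have e1 : mp (IsLocalRing.residue V) (q1 V) = q1 (IsLocalRing.ResidueField V) := by
    simp [q1]
  have e2 : mp (IsLocalRing.residue V) (q2 (⟨t, htV⟩ : V)) =
      q2 (0 : IsLocalRing.ResidueField V) := by
    simp only [q2, map_mul, map_sub, map_pow, map_one, coe_mapRingHom, map_X, map_C]
    rw [hres]
  have e3 : mp (IsLocalRing.residue V) (C X) = C X := by simp
  have e4 : mp (IsLocalRing.residue V) X = X := by simp
  rw [e1, e2, e3, e4] at h3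
  have hi0 : i ≠ 0 := by
    rintro rfl
    norm_num at hi
  have hiV : i ∈ V := by
    rcases V.mem_or_inv_mem i with h | h
    · exact h
    · have : i⁻¹ = -i := by
        field_simp
        linear_combination hi
      rw [this] at h
      have := neg_mem h
      rwa [neg_neg] at this
  have hiV2 : (⟨i, hiV⟩ : V) ^ 2 = -1 := Subtype.ext hi
  have := core_zero (IsLocalRing.residue V ⟨i, hiV⟩) (by rw [← map_pow, hiV2, map_neg, map_one])
    _ h3 j
  exact hj this

end core

end Pool.CRD.E1
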