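import Pool.Agent.CRD.E.E1A

/-!
# CRD, area E: the quaternion algebra is not split: statement in a field
-/

open Polynomial

namespace Pool.CRD.E1

section mul

/-- coordinates of a product -/
def mul4 {S : Type*} [CommRing S] (q q' : S) (a b : Fin 4 → S) : Fin 4 → S :=
  ![a 0 * b 0 + a 1 * b 1 * q + a 2 * b 2 * q' + a 3 * b 3 * q * q',
    a 0 * b 1 + a 1 * b 0 + (a 2 * b 3 + a 3 * b 2) * q',
    a 0 * b 2 + a 2 * b 0 + (a 1 * b 3 + a 3 * b 1) * q,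
    a 0 * b 3 + a 3 * b 0 + a 1 * b 2 + a 2 * b 1]

lemma ev_mul {S : Type*} [CommRing S] {q q' : S} (y y' : S) (hy : y ^ 2 = q) (hy' : y' ^ 2 = q')
    (a b : Fin 4 → S) : ev y y' a * ev y y' b = ev y y' (mul4 q q' a b) := by
  simp only [ev, mul4, Matrix.cons_val]
  rw [← hy, ← hy']
  ring

lemma map_mul4 {S S' : Type*} [CommRing S] [CommRing S'] (f : S →+* S') (q q' : S)
    (a b : Fin 4 → S) (k : Fin 4) :
    f (mul4 q q' a b k) = mul4 (f q) (f q') (fun j => f (a j)) (fun j => f (b j)) k := by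
  fin_cases k <;> simp [mul4]

end mul

variable {K L : Type*} [Field K] [Field L] [Algebra K L]

/-- evaluation of polynomials in two variables -/
noncomputable def evP (z₁ z₂ : L) : P2 K →+* L :=
  eval₂RingHom (aeval (R := K) z₁).toRingHom z₂

lemma evP_X (z₁ z₂ : L) : evP (K := K) z₁ z₂ X = z₂ := by simp [evP]

lemma evP_CX (z₁ z₂ : L) : evP (K := K) z₁ z₂ (C X) = z₁ := by simp [evP]

lemma evP_C (z₁ z₂ : L) (p : K[X]) : evP (K := K) z₁ z₂ (C p) = aeval z₁ p := by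
  simp [evP]

lemma evP_q1 (z₁ z₂ : L) : evP (K := K) z₁ z₂ (q1 K) = z₁ * (z₁ ^ 3 - 1) * (z₁ ^ 3 - 4) := by
  rw [q1, evP_C]
  simp only [map_mul, map_sub, map_pow, aeval_X, map_one, map_ofNat]

lemma evP_q2 (t : K) (z₁ z₂ : L) : evP (K := K) z₁ z₂ (q2 t) =
    z₂ * (z₂ ^ 3 - 1) * (z₂ ^ 3 - algebraMap K L t) := by
  simp [evP, q2]

/-- the field statement -/
theorem field_core [CharZero K] (i : K) (hi : i ^ 2 = -1) (t : K)
    (ht : Transcendental ℚ t) (z₁ y₁ z₂ y₂ : L)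
    (hy₁ : y₁ ^ 2 = z₁ * (z₁ ^ 3 - 1) * (z₁ ^ 3 - 4))
    (hy₂ : y₂ ^ 2 = z₂ * (z₂ ^ 3 - 1) * (z₂ ^ 3 - algebraMap K L t))
    (hind : ∀ p : Fin 4 → P2 K, ev y₁ y₂ (fun j => evP z₁ z₂ (p j)) = 0 → ∀ j, p j = 0)
    (hfrac : ∀ x : L, ∃ p q : Fin 4 → P2 K, ev y₁ y₂ (fun j => evP z₁ z₂ (q j)) ≠ 0 ∧
      x = ev y₁ y₂ (fun j => evP z₁ z₂ (p j)) / ev y₁ y₂ (fun j => evP z₁ z₂ (q j))) (a b : L) :
    a ^ 2 - z₁ * b ^ 2 ≠ z₂ := by
  intro hab
  obtain ⟨p₁, q₁, hq₁, ha⟩ := hfrac a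
  obtain ⟨p₂, q₂, hq₂, hb⟩ := hfrac b
  have hmul : ∀ p q : Fin 4 → P2 K, ev y₁ y₂ (fun j => evP z₁ z₂ (p j)) *
      ev y₁ y₂ (fun j => evP z₁ z₂ (q j)) =
      ev y₁ y₂ (fun j => evP z₁ z₂ (mul4 (q1 K) (q2 t) p q j)) := by
    intro p q
    rw [ev_mul y₁ y₂ (hy₁.trans (evP_q1 (K := K) z₁ z₂).symm) (hy₂.trans (evP_q2 t z₁ z₂).symm)]
    congr 1
    funext j
    rw [map_mul4]
  let P : Fin 3 × Fin 4 → P2 K := fun x =>
    ![mul4 (q1 K) (q2 t) p₁ q₂ x.2, mul4 (q1 K) (q2 t) p₂ q₁ x.2, mul4 (q1 K) (q2 t) q₁ q₂ x.2] x.1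
  have hrel : Rel (q1 K) (q2 t) (C X) X P := by
    have h1 : ∀ k, sq4 (q1 K) (q2 t) (fun j => P (0, j)) k - C X *
        sq4 (q1 K) (q2 t) (fun j => P (1, j)) k -
        X * sq4 (q1 K) (q2 t) (fun j => P (2, j)) k = 0 := by
      apply hind
      have e : ∀ u : Fin 4 → P2 K, ev y₁ y₂ (fun j => evP z₁ z₂ (sq4 (q1 K) (q2 t) u j)) =
          ev y₁ y₂ (fun j => evP z₁ z₂ (u j)) ^ 2 := by
        intro u
        rw [ev_sq y₁ y₂ (hy₁.trans (evP_q1 (K := K) z₁ z₂).symm)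
          (hy₂.trans (evP_q2 t z₁ z₂).symm)]
        congr 1
        funext j
        rw [map_sq4]
      have e0 := e (fun j => P (0, j))
      have e1 := e (fun j => P (1, j))
      have e2 := e (fun j => P (2, j))
      have f0 : ev y₁ y₂ (fun j => evP z₁ z₂ (P (0, j))) = _ := (hmul p₁ q₂).symm
      have f1 : ev y₁ y₂ (fun j => evP z₁ z₂ (P (1, j))) = _ := (hmul p₂ q₁).symm
      have f2 : ev y₁ y₂ (fun j => evP z₁ z₂ (P (2, j))) = _ := (hmul q₁ q₂).symm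
      rw [f0] at e0
      rw [f1] at e1
      rw [f2] at e2
      have hlin : ev y₁ y₂ (fun j => evP (K := K) z₁ z₂ (sq4 (q1 K) (q2 t) (fun j => P (0, j)) j -
          C X * sq4 (q1 K) (q2 t) (fun j => P (1, j)) j -
          X * sq4 (q1 K) (q2 t) (fun j => P (2, j)) j)) =
          ev y₁ y₂ (fun j => evP z₁ z₂ (sq4 (q1 K) (q2 t) (fun j => P (0, j)) j)) -
          z₁ * ev y₁ y₂ (fun j => evP z₁ z₂ (sq4 (q1 K) (q2 t) (fun j => P (1, j)) j)) -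
          z₂ * ev y₁ y₂ (fun j => evP z₁ z₂ (sq4 (q1 K) (q2 t) (fun j => P (2, j)) j)) := by
        unfold ev
        simp only [map_sub, map_mul, evP_X, evP_CX]
        ring
      rw [hlin, e0, e1, e2]
      have ha' : a * ev y₁ y₂ (fun j => evP z₁ z₂ (q₁ j)) =
          ev y₁ y₂ (fun j => evP z₁ z₂ (p₁ j)) := by
        rw [ha]; field_simp
      have hb' : b * ev y₁ y₂ (fun j => evP z₁ z₂ (q₂ j)) =
          ev y₁ y₂ (fun j => evP z₁ z₂ (p₂ j)) := by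
        rw [hb]; field_simp
      rw [← ha', ← hb']
      linear_combination (ev y₁ y₂ (fun j => evP z₁ z₂ (q₁ j)) *
        ev y₁ y₂ (fun j => evP z₁ z₂ (q₂ j))) ^ 2 * hab
    intro k
    exact sub_eq_zero.1 (h1 k)
  have h0 := core_poly i hi t ht P hrel
  have h2 : ev y₁ y₂ (fun j => evP z₁ z₂ (P (2, j))) = 0 := by
    have : (fun j => evP (K := K) z₁ z₂ (P (2, j))) = fun _ => 0 := by
      funext j
      rw [h0 (2, j), map_zero]
    rw [this]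
    simp [ev]
  have f2 : ev y₁ y₂ (fun j => evP z₁ z₂ (P (2, j))) = _ := (hmul q₁ q₂).symm
  rw [h2] at f2
  exact mul_ne_zero hq₁ hq₂ f2.symm

end Pool.CRD.E1
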