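import Mathlib

/-!
# CRD, area E: the explicit splitting over the special fibre

`E_4 : y^2 = x (x-1) (x-4)`, `E_9 : Y^2 = X (X-1) (X-9)`. The quaternion algebra `(x, X)` is split
over the function field of `E_4 × E_9`.
-/

namespace Pool.CRD.E0

variable {L : Type*} [Field L]

/-- if `x ^ 2` is a square and `2 ≠ 0` the form is universal -/
lemma split_of_sq (h2 : (2 : L) ≠ 0) (x X c : L) (hc : x = c ^ 2) (hx : x ≠ 0) :
    ∃ a b : L, a ^ 2 - x * b ^ 2 = X := by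
  have hc0 : c ≠ 0 := by
    rintro rfl
    apply hx; rw [hc]; ring
  refine ⟨(X + 1) / 2, (X - 1) / (2 * c), ?_⟩
  rw [hc]
  field_simp
  ring

/-- the Steinberg relation -/
lemma split_of_sr (h2 : (2 : L) ≠ 0) (x X s r W : L) (hx : x ≠ 0) (hX : X ≠ 0) (hX1 : X ≠ 1)
    (hs : X * s ^ 2 = W) (hr : x * (1 - X) * r ^ 2 = 1 - W) : ∃ a b : L, a ^ 2 - x * b ^ 2 = X := by
  by_cases h : s = 1
  · subst h
    have hW : W = X := by rw [← hs]; ring
    rw [hW] at hr
    have h1 : (1 - X) * (x * r ^ 2 - 1) = 0 := by linear_combination hr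
    have h1X : (1 - X) ≠ 0 := fun h => hX1 (by linear_combination -h)
    have h3 : x * r ^ 2 - 1 = 0 := (mul_eq_zero.1 h1).resolve_left h1X
    have hr0 : r ≠ 0 := by
      rintro rfl
      simp at h3
    refine split_of_sq h2 x X r⁻¹ ?_ hx
    field_simp
    linear_combination h3
  · have hs1 : s - 1 ≠ 0 := sub_ne_zero.2 h
    refine ⟨(1 - s * X) / (s - 1), (1 - X) * r / (s - 1), ?_⟩
    rw [div_pow, div_pow, ← mul_div_assoc, ← sub_div, div_eq_iff (pow_ne_zero 2 hs1)]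
    have h4 : x * ((1 - X) * r) ^ 2 = (1 - X) * (1 - X * s ^ 2) := by
      rw [hs, ← hr]; ring
    rw [h4]
    ring

/-- the splitting -/
theorem core (h2 : (2 : L) ≠ 0) (i x y X Y : L) (hi : i ^ 2 = -1)
    (h₁ : y ^ 2 = x * (x - 1) * (x - 4)) (h₂ : Y ^ 2 = X * (X - 1) * (X - 9))
    (hx : x ≠ 0) (hy : y ≠ 0) (hx2 : x ≠ 2) (hX : X ≠ 0) (hX1 : X ≠ 1)
    (hne : X * x ^ 2 + y ^ 2 ≠ 0) : ∃ a b : L, a ^ 2 - x * b ^ 2 = X := by
  have hi0 : i ≠ 0 := by
    rintro rfl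
    norm_num at hi
  have hx2' : x - 2 ≠ 0 := sub_ne_zero.2 hx2
  have hX1' : X - 1 ≠ 0 := sub_ne_zero.2 hX1
  obtain ⟨u, hu⟩ : ∃ u, u = - y ^ 2 / x ^ 2 := ⟨_, rfl⟩
  obtain ⟨v, hv⟩ : ∃ v, v = i * y * (4 - x ^ 2) / x ^ 2 := ⟨_, rfl⟩
  have hu' : u * x = - ((x - 1) * (x - 4)) := by
    rw [hu, h₁]; field_simp
  have hu1 : (u - 1) * x = - (x - 2) ^ 2 := by linear_combination hu'
  have hu9 : (u - 9) * x = - (x + 2) ^ 2 := by linear_combination hu'
  have hv2 : v ^ 2 = u * (u - 1) * (u - 9) := by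
    have e1 : u * (u - 1) * (u - 9) * x ^ 3 = - ((x - 1) * (x - 4)) * (- (x - 2) ^ 2) *
        (- (x + 2) ^ 2) := by
      rw [← hu', ← hu1, ← hu9]; ring
    have e2 : v ^ 2 * x ^ 3 = - ((x - 1) * (x - 4)) * (- (x - 2) ^ 2) * (- (x + 2) ^ 2) := by
      rw [hv]
      field_simp
      rw [hi, h₁]
      ring
    exact mul_right_cancel₀ (pow_ne_zero 3 hx) (e2.trans e1.symm)
  have huX : u - X ≠ 0 := by
    intro h
    apply hne
    have : X = - y ^ 2 / x ^ 2 := by rw [← hu]; linear_combination -h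
    rw [this]
    field_simp
    ring
  obtain ⟨l, hl⟩ : ∃ l, l = (v - Y) / (u - X) := ⟨_, rfl⟩
  have hl' : l * (u - X) = v - Y := by rw [hl]; field_simp
  obtain ⟨n, hn⟩ : ∃ n, n = v - l * u := ⟨_, rfl⟩
  obtain ⟨W, hW⟩ : ∃ W, W = l ^ 2 + 10 - u - X := ⟨_, rfl⟩
  have hα : (9 - 2 * l * n - (u * X + u * W + X * W)) * (u - X) = 0 := by
    have e1 : l * u + n = v := by rw [hn]; ring
    have e2 : l * X + n = Y := by rw [hn]; linear_combination -hl'
    have g1 : u * (u - 1) * (u - 9) - (l * u + n) ^ 2 = 0 := by rw [e1, hv2]; ring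
    have g2 : X * (X - 1) * (X - 9) - (l * X + n) ^ 2 = 0 := by rw [e2, h₂]; ring
    rw [hW]
    linear_combination g1 - g2
  have hα' : 9 - 2 * l * n - (u * X + u * W + X * W) = 0 := (mul_eq_zero.1 hα).resolve_right huX
  have hβ : u * X * W = n ^ 2 := by
    have e1 : l * u + n = v := by rw [hn]; ring
    have g1 : u * (u - 1) * (u - 9) - (l * u + n) ^ 2 = 0 := by rw [e1, hv2]; ring
    have g3 : (9 - 2 * l * n - (u * X + u * W + X * W)) * u + (- n ^ 2 + u * X * W) = 0 := by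
      rw [hW]
      linear_combination g1
    rw [hα'] at g3
    linear_combination g3
  have hγ : (u - 1) * (X - 1) * (W - 1) = (l + n) ^ 2 := by
    rw [hW] at hα' hβ ⊢
    linear_combination hβ + hα'
  have hu0 : u ≠ 0 := by
    rw [hu]
    exact div_ne_zero (neg_ne_zero.2 (pow_ne_zero 2 hy)) (pow_ne_zero 2 hx)
  refine split_of_sr h2 x X (n * x / (i * y * X)) (i * (l + n) / ((x - 2) * (X - 1))) W hx hX hX1
    ?_ ?_
  · have e : u * X * (X * (n * x / (i * y * X)) ^ 2) = u * X * W := by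
      rw [hβ, hu]
      field_simp
      rw [hi]
      ring
    exact mul_left_cancel₀ (mul_ne_zero hu0 hX) e
  · have hu10 : u - 1 ≠ 0 := by
      intro h
      rw [h, zero_mul] at hu1
      exact pow_ne_zero 2 hx2' (by linear_combination hu1)
    have e : (u - 1) * (X - 1) * (x * (1 - X) * (i * (l + n) / ((x - 2) * (X - 1))) ^ 2) =
        (u - 1) * (X - 1) * (1 - W) := by
      have e2 : (u - 1) * (X - 1) * (1 - W) = - (l + n) ^ 2 := by rw [← hγ]; ring
      rw [e2, div_pow, mul_pow, mul_pow, hi]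
      have e3 : (u - 1) * (X - 1) * (x * (1 - X) * (-1 * (l + n) ^ 2 /
          ((x - 2) ^ 2 * (X - 1) ^ 2))) = ((u - 1) * x) * (l + n) ^ 2 / (x - 2) ^ 2 := by
        field_simp
        ring
      rw [e3, hu1]
      field_simp
    exact mul_left_cancel₀ (mul_ne_zero hu10 hX1') e

end Pool.CRD.E0
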