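import Pool.Agent.CRD.E.E1B
import Pool.Agent.CRD.E.SP0
import Pool.Agent.CRD.F2.Stmts

/-!
# CRD, area E: the quaternion algebra `(z₁, z₂)` on the product of the two curves:
not split for `(4, t)`, `t` transcendental; split for `(4, 9)`
-/

open Polynomial TensorProduct

namespace Pool.CRD

namespace E1N_

section dbl

variable {k : Type} [Field k] {f : k[X]} {F : Type} [Field F] [Algebra k F] {z y : F}

lemma aeval_mem (p : k[X]) : aeval z p ∈ IntermediateField.adjoin k {z} :=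
  IntermediateField.algebra_adjoin_le_adjoin k {z} (aeval_mem_adjoin_singleton k z)

lemma ind2 (D : Dbl k f F z y) (a b : k[X]) (h : aeval z a + aeval z b * y = 0) :
    a = 0 ∧ b = 0 := by
  obtain ⟨h1, h2⟩ := D.indep _ (aeval_mem a) _ (aeval_mem b) h
  have h3 : Function.Injective (aeval (R := k) z) := transcendental_iff_injective.1 D.tr
  exact ⟨h3 (by rw [h1, map_zero]), h3 (by rw [h2, map_zero])⟩

/-- the powers `z^n` and `z^n y` -/
def pw (z y : F) : ℕ ⊕ ℕ → F := Sum.elim (fun n => z ^ n) (fun n => z ^ n * y)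

lemma pw_li (D : Dbl k f F z y) : LinearIndependent k (pw z y) := by
  let g : (k[X] × k[X]) →ₗ[k] F := LinearMap.coprod (aeval z).toLinearMap
    ((LinearMap.mulRight k y).comp (aeval z).toLinearMap)
  have hg : LinearMap.ker g = ⊥ := by
    rw [LinearMap.ker_eq_bot']
    rintro ⟨a, b⟩ h
    obtain ⟨h1, h2⟩ := ind2 D a b h
    rw [h1, h2]; rfl
  have h1 := (((Polynomial.basisMonomials k).prod (Polynomial.basisMonomials k)).linearIndependent).map' g hg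
  have h2 : g ∘ ((Polynomial.basisMonomials k).prod (Polynomial.basisMonomials k)) = pw z y := by
    funext x
    rcases x with n | n <;> simp [g, pw, aeval_monomial]
  rw [h2] at h1
  exact h1

end dbl

section tens

variable {K F₁ F₂ L : Type} [Field K] [Field F₁] [Field F₂] [Field L] [Algebra K F₁]
  [Algebra K F₂] [Algebra K L] (e₁ : F₁ →ₐ[K] L) (e₂ : F₂ →ₐ[K] L)
  (inj : Function.Injective (Algebra.TensorProduct.productMap e₁ e₂))

include inj in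
lemma tens_ind {ι : Type} [DecidableEq ι] (w : ι → F₂) (hw : LinearIndependent K w) (s : Finset ι)
    (a : ι → F₁) (h : ∑ i ∈ s, e₁ (a i) * e₂ (w i) = 0) : ∀ i ∈ s, a i = 0 := by
  intro i hi
  have h1 : ∑ i ∈ s, a i ⊗ₜ[K] w i = 0 := by
    apply inj
    rw [map_sum, map_zero, ← h]
    apply Finset.sum_congr rfl
    intro j _
    simp
  let ψ : Submodule.span K (Set.range w) →ₗ[K] K := (Finsupp.lapply i).comp hw.repr
  obtain ⟨φ, hφ⟩ := LinearMap.exists_extend ψ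
  have h2 : ∀ j, φ (w j) = if j = i then 1 else 0 := by
    intro j
    have h3 := LinearMap.congr_fun hφ (⟨w j, Submodule.subset_span ⟨j, rfl⟩⟩ :
      Submodule.span K (Set.range w))
    simp only [LinearMap.comp_apply, Submodule.subtype_apply] at h3
    rw [h3]
    simp only [ψ, LinearMap.comp_apply, Finsupp.lapply_apply]
    rw [hw.repr_eq_single j _ rfl, Finsupp.single_apply]
  have h4 := congr_arg (TensorProduct.rid K F₁ ∘ LinearMap.lTensor F₁ φ) h1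
  simp only [Function.comp_apply, map_sum, LinearMap.lTensor_tmul, TensorProduct.rid_tmul,
    map_zero, h2, ite_smul, one_smul, zero_smul, Finset.sum_ite_eq', hi, if_true] at h4
  exact h4

include inj in
lemma ne_of_tr (a : F₁) (b : F₂) (hb : Transcendental K b) : e₁ a ≠ e₂ b := by
  intro h
  have hw : LinearIndependent K (fun n : ℕ => b ^ n) := by
    have h1 := (Polynomial.basisMonomials K).linearIndependent.map' (aeval b).toLinearMap
      (LinearMap.ker_eq_bot.2 (transcendental_iff_injective.1 hb))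
    have h2 : (aeval b).toLinearMap ∘ (Polynomial.basisMonomials K) = fun n : ℕ => b ^ n := by
      funext n
      simp [aeval_monomial]
    rw [h2] at h1
    exact h1
  have := tens_ind e₁ e₂ inj _ hw (Finset.range 2) (fun n => if n = 0 then a else -1) (by
    rw [Finset.sum_range_succ, Finset.sum_range_one]
    simp
    rw [h]; ring) 1 (by simp)
  simp at this

variable {f₁ f₂ : K[X]} {z₁ y₁ : F₁} {z₂ y₂ : F₂}

lemma evP_eq (p : E1.P2 K) (N : ℕ) (hN : p.natDegree < N) :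
    E1.evP (e₁ z₁) (e₂ z₂) p = ∑ n ∈ Finset.range N, e₁ (aeval z₁ (p.coeff n)) * e₂ (z₂ ^ n) := by
  have h1 : E1.evP (e₁ z₁) (e₂ z₂) p = eval₂ (aeval (R := K) (e₁ z₁)).toRingHom (e₂ z₂) p := rfl
  rw [h1, eval₂_eq_sum_range' _ hN]
  apply Finset.sum_congr rfl
  intro n _
  rw [map_pow]
  congr 1
  exact aeval_algHom_apply e₁ z₁ (p.coeff n)

include inj in
lemma hind (D₁ : Dbl K f₁ F₁ z₁ y₁) (D₂ : Dbl K f₂ F₂ z₂ y₂) (p : Fin 4 → E1.P2 K)
    (h : E1.ev (e₁ y₁) (e₂ y₂) (fun j => E1.evP (e₁ z₁) (e₂ z₂) (p j)) = 0) :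
    ∀ j, p j = 0 := by
  classical
  obtain ⟨N, hN⟩ : ∃ N, ∀ j, (p j).natDegree < N := by
    refine ⟨(Finset.univ.sup fun j => (p j).natDegree) + 1, fun j => ?_⟩
    exact Nat.lt_succ_of_le (Finset.le_sup (f := fun j => (p j).natDegree) (Finset.mem_univ j))
  have key := tens_ind e₁ e₂ inj (pw z₂ y₂) (pw_li D₂) ((Finset.range N).disjSum (Finset.range N))
    (Sum.elim (fun n => aeval z₁ ((p 0).coeff n) + aeval z₁ ((p 1).coeff n) * y₁)
      (fun n => aeval z₁ ((p 2).coeff n) + aeval z₁ ((p 3).coeff n) * y₁)) (by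
    rw [Finset.sum_disjSum]
    simp only [Sum.elim_inl, Sum.elim_inr, pw]
    simp only [E1.ev, evP_eq e₁ e₂ (p _) N (hN _)] at h
    rw [← h]
    simp only [map_add, map_mul, add_mul, Finset.sum_add_distrib, Finset.sum_mul]
    have e1 : ∀ x : ℕ → F₁, ∀ y : ℕ → F₂, ∀ (a b : L), (∑ i ∈ Finset.range N, e₁ (x i) * a * e₂ (y i)) =
      ∑ i ∈ Finset.range N, e₁ (x i) * e₂ (y i) * a := fun x y a b =>
        Finset.sum_congr rfl fun i _ => by ring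
    congr 1
    · congr 1
      exact e1 _ _ _ 0
    · congr 1
      · exact Finset.sum_congr rfl fun i _ => by ring
      · exact Finset.sum_congr rfl fun i _ => by ring)
  have hz : ∀ j n, (p j).coeff n = 0 ∨ n < N := by
    intro j n
    by_cases hn : n < N
    · exact Or.inr hn
    · exact Or.inl (coeff_eq_zero_of_natDegree_lt (lt_of_lt_of_le (hN j) (not_lt.1 hn)))
  have h01 : ∀ n < N, (p 0).coeff n = 0 ∧ (p 1).coeff n = 0 := by
    intro n hn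
    exact ind2 D₁ _ _ (key (Sum.inl n) (by simp [hn]))
  have h23 : ∀ n < N, (p 2).coeff n = 0 ∧ (p 3).coeff n = 0 := by
    intro n hn
    exact ind2 D₁ _ _ (key (Sum.inr n) (by simp [hn]))
  intro j
  ext1 n
  rcases hz j n with h0 | hn
  · rw [h0, coeff_zero]
  · rw [coeff_zero]
    fin_cases j
    · exact (h01 n hn).1
    · exact (h01 n hn).2
    · exact (h23 n hn).1
    · exact (h23 n hn).2

/-- the subalgebra of all values `ev (e₁ y₁) (e₂ y₂) ..` -/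
lemma ev_range {t : K} (hy₁ : e₁ y₁ ^ 2 = e₁ z₁ * (e₁ z₁ ^ 3 - 1) * (e₁ z₁ ^ 3 - 4))
    (hy₂ : e₂ y₂ ^ 2 = e₂ z₂ * (e₂ z₂ ^ 3 - 1) * (e₂ z₂ ^ 3 - algebraMap K L t))
    (x : L) (hx : x ∈ Algebra.adjoin K {e₁ z₁, e₁ y₁, e₂ z₂, e₂ y₂}) :
    ∃ p : Fin 4 → E1.P2 K, x = E1.ev (e₁ y₁) (e₂ y₂) (fun j => E1.evP (e₁ z₁) (e₂ z₂) (p j)) := by
  induction hx using Algebra.adjoin_induction with
  | mem x hx =>
    rcases hx with rfl | rfl | rfl | rfl
    · exact ⟨![C X, 0, 0, 0], by simp [E1.ev, E1.evP_CX]⟩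
    · exact ⟨![0, 1, 0, 0], by simp [E1.ev]⟩
    · exact ⟨![X, 0, 0, 0], by simp [E1.ev, E1.evP_X]⟩
    · exact ⟨![0, 0, 1, 0], by simp [E1.ev]⟩
  | algebraMap r => exact ⟨![C (C r), 0, 0, 0], by simp [E1.ev, E1.evP_C]⟩
  | add x y _ _ hx hy =>
    obtain ⟨p, rfl⟩ := hx
    obtain ⟨q, rfl⟩ := hy
    refine ⟨fun j => p j + q j, ?_⟩
    simp only [E1.ev, map_add]
    ring
  | mul x y _ _ hx hy =>
    obtain ⟨p, rfl⟩ := hx
    obtain ⟨q, rfl⟩ := hy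
    refine ⟨E1.mul4 (E1.q1 K) (E1.q2 t) p q, ?_⟩
    rw [E1.ev_mul (e₁ y₁) (e₂ y₂) (hy₁.trans (E1.evP_q1 (K := K) (e₁ z₁) (e₂ z₂)).symm)
      (hy₂.trans (E1.evP_q2 t (e₁ z₁) (e₂ z₂)).symm)]
    congr 1
    funext j
    rw [E1.map_mul4]

lemma dbl_mem {F : Type} [Field F] [Algebra K F] {f : K[X]} {z y : F} (D : Dbl K f F z y)
    (e : F →ₐ[K] L) (T : IntermediateField K L) (hz : e z ∈ T) (hy : e y ∈ T) (x : F) :
    e x ∈ T := by
  have h : ∀ a ∈ IntermediateField.adjoin K {z}, e a ∈ T := by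
    intro a ha
    have h1 : IntermediateField.adjoin K {z} ≤ T.comap e := by
      rw [IntermediateField.adjoin_le_iff]
      rintro _ rfl
      exact hz
    exact h1 ha
  obtain ⟨a, ha, b, hb, rfl⟩ := D.gen x
  rw [map_add, map_mul]
  exact add_mem (h a ha) (mul_mem (h b hb) hy)

lemma hfrac {t : K} (D₁ : Dbl K f₁ F₁ z₁ y₁) (D₂ : Dbl K f₂ F₂ z₂ y₂)
    (hy₁ : e₁ y₁ ^ 2 = e₁ z₁ * (e₁ z₁ ^ 3 - 1) * (e₁ z₁ ^ 3 - 4))
    (hy₂ : e₂ y₂ ^ 2 = e₂ z₂ * (e₂ z₂ ^ 3 - 1) * (e₂ z₂ ^ 3 - algebraMap K L t))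
    (hL : ∀ z : L, ∃ p q : TensorProduct K F₁ F₂,
      Algebra.TensorProduct.productMap e₁ e₂ q ≠ 0 ∧
      z = Algebra.TensorProduct.productMap e₁ e₂ p / Algebra.TensorProduct.productMap e₁ e₂ q)
    (x : L) : ∃ p q : Fin 4 → E1.P2 K,
      E1.ev (e₁ y₁) (e₂ y₂) (fun j => E1.evP (e₁ z₁) (e₂ z₂) (q j)) ≠ 0 ∧
      x = E1.ev (e₁ y₁) (e₂ y₂) (fun j => E1.evP (e₁ z₁) (e₂ z₂) (p j)) /
        E1.ev (e₁ y₁) (e₂ y₂) (fun j => E1.evP (e₁ z₁) (e₂ z₂) (q j)) := by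
  set T := IntermediateField.adjoin K {e₁ z₁, e₁ y₁, e₂ z₂, e₂ y₂} with hT
  have m1 : e₁ z₁ ∈ T := IntermediateField.subset_adjoin _ _ (by simp)
  have m2 : e₁ y₁ ∈ T := IntermediateField.subset_adjoin _ _ (by simp)
  have m3 : e₂ z₂ ∈ T := IntermediateField.subset_adjoin _ _ (by simp)
  have m4 : e₂ y₂ ∈ T := IntermediateField.subset_adjoin _ _ (by simp)
  have hp : ∀ p : TensorProduct K F₁ F₂, Algebra.TensorProduct.productMap e₁ e₂ p ∈ T := by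
    intro p
    induction p using TensorProduct.induction_on with
    | zero => rw [map_zero]; exact zero_mem _
    | add a b ha hb => rw [map_add]; exact add_mem ha hb
    | tmul a b =>
      rw [Algebra.TensorProduct.productMap_apply_tmul]
      exact mul_mem (dbl_mem D₁ e₁ T m1 m2 a) (dbl_mem D₂ e₂ T m3 m4 b)
  have hx : x ∈ T := by
    obtain ⟨p, q, -, rfl⟩ := hL x
    exact div_mem (hp p) (hp q)
  rw [hT, IntermediateField.mem_adjoin_iff_div] at hx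
  obtain ⟨r, hr, s, hs, rfl⟩ := hx
  obtain ⟨p, rfl⟩ := ev_range e₁ e₂ hy₁ hy₂ r hr
  obtain ⟨q, hq⟩ := ev_range e₁ e₂ hy₁ hy₂ s hs
  by_cases h0 : s = 0
  · refine ⟨fun _ => 0, ![1, 0, 0, 0], ?_, ?_⟩
    · simp [E1.ev]
    · rw [h0]; simp [E1.ev]
  · exact ⟨p, q, by rw [← hq]; exact h0, by rw [← hq]⟩

end tens

end E1N_

theorem e1n_proof : Stmt_E1N := by
  intro K _ _ _ t ht H₁ H₂ p₁ p₂ S
  rintro ⟨a, b, hab⟩
  obtain ⟨i, hi⟩ := IsAlgClosed.exists_pow_nat_eq (-1 : K) (n := 2) two_pos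
  let e₁ : H₁.F →ₐ[K] S.L := S.e₁
  let e₂ : H₂.F →ₐ[K] S.L := S.e₂
  have hinj : Function.Injective (Algebra.TensorProduct.productMap e₁ e₂) := S.inj
  have hL : ∀ z : S.L, ∃ p q : TensorProduct K H₁.F H₂.F,
      Algebra.TensorProduct.productMap e₁ e₂ q ≠ 0 ∧
      z = Algebra.TensorProduct.productMap e₁ e₂ p / Algebra.TensorProduct.productMap e₁ e₂ q :=
    S.frac
  have hy₁' : H₁.y ^ 2 = H₁.z * (H₁.z ^ 3 - 1) * (H₁.z ^ 3 - 4) := by
    rw [H₁.dbl.eqn]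
    simp only [fC, map_mul, map_sub, map_pow, aeval_X, map_one, map_ofNat]
    ring
  have hy₁ : e₁ H₁.y ^ 2 = e₁ H₁.z * (e₁ H₁.z ^ 3 - 1) * (e₁ H₁.z ^ 3 - 4) := by
    have := congr_arg e₁ hy₁'
    simpa only [map_mul, map_sub, map_pow, map_one, map_ofNat] using this
  have hy₂ : e₂ H₂.y ^ 2 = e₂ H₂.z * (e₂ H₂.z ^ 3 - 1) * (e₂ H₂.z ^ 3 - algebraMap K S.L t) := by
    rw [← map_pow, H₂.dbl.eqn]
    simp only [fC, map_mul, map_sub, map_pow, aeval_X, map_one, aeval_C]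
    rw [AlgHom.commutes]
    ring
  exact E1.field_core i hi t ht (e₁ H₁.z) (e₁ H₁.y) (e₂ H₂.z) (e₂ H₂.y) hy₁ hy₂
    (E1N_.hind e₁ e₂ hinj H₁.dbl H₂.dbl) (E1N_.hfrac e₁ e₂ H₁.dbl H₂.dbl hy₁ hy₂ hL) a b hab

theorem sp0_proof : Stmt_SP0 := by
  intro K _ _ _ H₁ H₂ p₁ p₂ S
  obtain ⟨i, hi⟩ := IsAlgClosed.exists_pow_nat_eq (-1 : K) (n := 2) two_pos
  let e₁ : H₁.F →ₐ[K] S.L := S.e₁
  let e₂ : H₂.F →ₐ[K] S.L := S.e₂
  have hinj : Function.Injective (Algebra.TensorProduct.productMap e₁ e₂) := S.inj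
  have hy₁ : H₁.y ^ 2 = H₁.z * (H₁.z ^ 3 - 1) * (H₁.z ^ 3 - 4) := by
    rw [H₁.dbl.eqn]
    simp only [fC, map_mul, map_sub, map_pow, aeval_X, map_one, map_ofNat]
    ring
  have hy₂ : H₂.y ^ 2 = H₂.z * (H₂.z ^ 3 - 1) * (H₂.z ^ 3 - 9) := by
    rw [H₂.dbl.eqn]
    simp only [fC, map_mul, map_sub, map_pow, aeval_X, map_one, map_ofNat]
    ring
  have tr₁ : ∀ p : K[X], p ≠ 0 → aeval H₁.z p ≠ 0 := fun p hp h => H₁.dbl.tr ⟨p, hp, h⟩
  have tr₂ : ∀ p : K[X], p ≠ 0 → aeval H₂.z p ≠ 0 := fun p hp h => H₂.dbl.tr ⟨p, hp, h⟩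
  have hz₁ : H₁.z ≠ 0 := by
    have := tr₁ X X_ne_zero
    rwa [aeval_X] at this
  have hz₂ : H₂.z ≠ 0 := by
    have := tr₂ X X_ne_zero
    rwa [aeval_X] at this
  have hpow : ∀ c : K, (X ^ 3 - C c : K[X]) ≠ 0 := fun c => X_pow_sub_C_ne_zero (by norm_num) c
  have hz₁c : ∀ c : K, H₁.z ^ 3 - algebraMap K H₁.F c ≠ 0 := by
    intro c
    have := tr₁ _ (hpow c)
    simpa using this
  have hz₂c : ∀ c : K, H₂.z ^ 3 - algebraMap K H₂.F c ≠ 0 := by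
    intro c
    have := tr₂ _ (hpow c)
    simpa using this
  have hy₁0 : H₁.y ≠ 0 := by
    intro h
    rw [h] at hy₁
    have h1 : H₁.z ^ 3 - 1 ≠ 0 := by have := hz₁c 1; rwa [map_one] at this
    have h4 : H₁.z ^ 3 - 4 ≠ 0 := by have := hz₁c 4; rwa [map_ofNat] at this
    exact mul_ne_zero (mul_ne_zero hz₁ h1) h4 (by rw [← hy₁]; ring)
  have he₁ : Function.Injective e₁ := e₁.toRingHom.injective
  have he₂ : Function.Injective e₂ := e₂.toRingHom.injective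
  have E₁ : e₁ H₁.y ^ 2 = e₁ H₁.z * (e₁ H₁.z ^ 3 - 1) * (e₁ H₁.z ^ 3 - 4) := by
    have := congr_arg e₁ hy₁
    simpa only [map_mul, map_sub, map_pow, map_one, map_ofNat] using this
  have E₂ : e₂ H₂.y ^ 2 = e₂ H₂.z * (e₂ H₂.z ^ 3 - 1) * (e₂ H₂.z ^ 3 - 9) := by
    have := congr_arg e₂ hy₂
    simpa only [map_mul, map_sub, map_pow, map_one, map_ofNat] using this
  have n1 : e₁ H₁.z ≠ 0 := fun h => hz₁ (he₁ (by rw [h, map_zero]))
  have n2 : e₂ H₂.z ≠ 0 := fun h => hz₂ (he₂ (by rw [h, map_zero]))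
  have n3 : e₁ H₁.y ≠ 0 := fun h => hy₁0 (he₁ (by rw [h, map_zero]))
  have n4 : e₁ H₁.z ^ 3 ≠ 2 := by
    intro h
    have := hz₁c 2
    apply this
    apply he₁
    rw [map_sub, map_pow, h, map_ofNat, map_ofNat, map_zero, sub_self]
  have n5 : e₂ H₂.z ^ 3 ≠ 1 := by
    intro h
    have := hz₂c 1
    apply this
    apply he₂
    rw [map_sub, map_pow, h, map_one, map_one, map_zero, sub_self]
  have n6 : e₂ H₂.z ^ 3 * (e₁ H₁.z ^ 3) ^ 2 + (e₁ H₁.z * e₁ H₁.y) ^ 2 ≠ 0 := by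
    intro h
    have h1 : e₁ (- (H₁.z * H₁.y) ^ 2 / (H₁.z ^ 3) ^ 2) = e₂ (H₂.z ^ 3) := by
      rw [map_div₀, map_neg, map_pow, map_mul, map_pow, map_pow, map_pow]
      rw [div_eq_iff (pow_ne_zero 2 (pow_ne_zero 3 n1))]
      linear_combination -h
    exact E1N_.ne_of_tr e₁ e₂ hinj _ _ (H₂.dbl.tr.pow (by norm_num)) h1
  have : CharZero S.L := charZero_of_injective_algebraMap (algebraMap K S.L).injective
  obtain ⟨a, b, hab⟩ := E0.core (L := S.L) two_ne_zero (algebraMap K S.L i) (e₁ H₁.z ^ 3)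
    (e₁ H₁.z * e₁ H₁.y) (e₂ H₂.z ^ 3) (e₂ H₂.z * e₂ H₂.y)
    (by rw [← map_pow, hi, map_neg, map_one]) (by rw [mul_pow, E₁]; ring)
    (by rw [mul_pow, E₂]; ring) (pow_ne_zero 3 n1) (mul_ne_zero n1 n3) n4 (pow_ne_zero 3 n2)
    n5 n6
  refine ⟨a / e₂ H₂.z, e₁ H₁.z * b / e₂ H₂.z, ?_⟩
  change (a / e₂ H₂.z) ^ 2 - e₁ H₁.z * (e₁ H₁.z * b / e₂ H₂.z) ^ 2 = e₂ H₂.z
  have : (a / e₂ H₂.z) ^ 2 - e₁ H₁.z * (e₁ H₁.z * b / e₂ H₂.z) ^ 2 =
      (a ^ 2 - e₁ H₁.z ^ 3 * b ^ 2) / e₂ H₂.z ^ 2 := by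
    field_simp
  rw [this, hab]
  field_simp

end Pool.CRD
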